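import Mathlib

set_option autoImplicit false

/-! Equal prime supports of `x ^ (2 ^ n) - 1` and `y ^ (2 ^ n) - 1`: elementary part. -/

open Finset

namespace Pool.Agent.Helper577Eps

/-- the same prime divisors -/
def Sim (a b : ℕ) : Prop := ∀ p : ℕ, p.Prime → (p ∣ a ↔ p ∣ b)

/-- every prime divisor of `x ^ 4 - 1` divides `x ^ 2 - y ^ 2` -/
lemma dvd_diff {x y : ℕ} (hy : 1 ≤ y) (hyx : y < x) (h1 : Sim (x ^ 2 - 1) (y ^ 2 - 1))
    (h2 : Sim (x ^ 4 - 1) (y ^ 4 - 1)) {p : ℕ} (hp : p.Prime) (hpx : p ∣ x ^ 4 - 1) : p ∣ x ^ 2 - y ^ 2 := by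
  have hx1 : 1 ≤ x ^ 2 := Nat.one_le_pow _ _ (by omega)
  have hy1 : 1 ≤ y ^ 2 := Nat.one_le_pow _ _ hy
  have hx4 : 1 ≤ x ^ 4 := Nat.one_le_pow _ _ (by omega)
  have hy4 : 1 ≤ y ^ 4 := Nat.one_le_pow _ _ hy
  have hxy : y ^ 2 ≤ x ^ 2 := Nat.pow_le_pow_left hyx.le 2
  have hpI : Prime (p : ℤ) := Nat.prime_iff_prime_int.1 hp
  have c2x : ((x ^ 2 - 1 : ℕ) : ℤ) = (x : ℤ) ^ 2 - 1 := by push_cast [Nat.cast_sub hx1]; ring
  have c2y : ((y ^ 2 - 1 : ℕ) : ℤ) = (y : ℤ) ^ 2 - 1 := by push_cast [Nat.cast_sub hy1]; ring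
  have c4x : ((x ^ 4 - 1 : ℕ) : ℤ) = (x : ℤ) ^ 4 - 1 := by push_cast [Nat.cast_sub hx4]; ring
  have c4y : ((y ^ 4 - 1 : ℕ) : ℤ) = (y : ℤ) ^ 4 - 1 := by push_cast [Nat.cast_sub hy4]; ring
  have cd : ((x ^ 2 - y ^ 2 : ℕ) : ℤ) = (x : ℤ) ^ 2 - (y : ℤ) ^ 2 := by push_cast [Nat.cast_sub hxy]; ring
  have hpx' : (p : ℤ) ∣ (x : ℤ) ^ 4 - 1 := by rw [← c4x]; exact Int.natCast_dvd_natCast.2 hpx
  have hpy' : (p : ℤ) ∣ (y : ℤ) ^ 4 - 1 := by
    rw [← c4y]; exact Int.natCast_dvd_natCast.2 ((h2 p hp).1 hpx)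
  rw [← Int.natCast_dvd_natCast, cd]
  have fx : (x : ℤ) ^ 4 - 1 = ((x : ℤ) ^ 2 - 1) * ((x : ℤ) ^ 2 + 1) := by ring
  have fy : (y : ℤ) ^ 4 - 1 = ((y : ℤ) ^ 2 - 1) * ((y : ℤ) ^ 2 + 1) := by ring
  rw [fx] at hpx'
  rw [fy] at hpy'
  have key : (p : ℤ) ∣ (x : ℤ) ^ 2 - 1 ↔ (p : ℤ) ∣ (y : ℤ) ^ 2 - 1 := by
    rw [← c2x, ← c2y, Int.natCast_dvd_natCast, Int.natCast_dvd_natCast]
    exact h1 p hp
  by_cases hc : (p : ℤ) ∣ (x : ℤ) ^ 2 - 1
  · have := dvd_sub hc (key.1 hc)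
    have e : (x : ℤ) ^ 2 - 1 - ((y : ℤ) ^ 2 - 1) = (x : ℤ) ^ 2 - (y : ℤ) ^ 2 := by ring
    rwa [e] at this
  · have h3 := (hpI.dvd_or_dvd hpx').resolve_left hc
    have h4 := (hpI.dvd_or_dvd hpy').resolve_left (fun h => hc (key.2 h))
    have := dvd_sub h3 h4
    have e : (x : ℤ) ^ 2 + 1 - ((y : ℤ) ^ 2 + 1) = (x : ℤ) ^ 2 - (y : ℤ) ^ 2 := by ring
    rwa [e] at this

/-- a squarefree number divides `n` if all its prime factors do -/
lemma sqf_dvd {t n : ℕ} (ht : Squarefree t) (h : ∀ p : ℕ, p.Prime → p ∣ t → p ∣ n) : t ∣ n := by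
  by_cases hn : n = 0
  · rw [hn]; exact dvd_zero _
  rw [← Nat.prod_primeFactors_of_squarefree ht]
  refine (Finset.prod_primes_dvd _ (fun p hp => (Nat.prime_of_mem_primeFactors hp).prime) ?_)
  intro p hp
  exact h p (Nat.prime_of_mem_primeFactors hp) (Nat.dvd_of_mem_primeFactors hp)

lemma gcd_dvd_two {t s a b : ℕ} (h1 : t ∣ a) (h2 : s ∣ b) (h : Nat.gcd a b ∣ 2) : Nat.gcd t s ∣ 2 :=
  (Nat.gcd_dvd_gcd_of_dvd_left _ h1).trans ((Nat.gcd_dvd_gcd_of_dvd_right _ h2).trans h)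

/-- the squarefree parts of `x - 1`, `x + 1`, `x ^ 2 + 1` have product less than `8 x ^ 2` -/
lemma sqf_prod {x y t1 t2 t3 : ℕ} (hy : 1 ≤ y) (hyx : y < x) (h1 : Sim (x ^ 2 - 1) (y ^ 2 - 1))
    (h2 : Sim (x ^ 4 - 1) (y ^ 4 - 1)) (s1 : Squarefree t1) (s2 : Squarefree t2) (s3 : Squarefree t3)
    (d1 : t1 ∣ x - 1) (d2 : t2 ∣ x + 1) (d3 : t3 ∣ x ^ 2 + 1) : t1 * t2 * t3 < 8 * x ^ 2 := by
  obtain ⟨z, rfl⟩ : ∃ z, x = z + 1 := ⟨x - 1, by omega⟩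
  rw [Nat.add_sub_cancel] at d1
  have hx4 : (z + 1) ^ 4 - 1 = z * (z + 1 + 1) * ((z + 1) ^ 2 + 1) := by
    have : (z + 1) ^ 4 = z * (z + 1 + 1) * ((z + 1) ^ 2 + 1) + 1 := by ring
    omega
  have hd : ∀ {p : ℕ}, p.Prime → p ∣ (z + 1) ^ 4 - 1 → p ∣ (z + 1) ^ 2 - y ^ 2 := fun hp h =>
    dvd_diff hy hyx h1 h2 hp h
  have hDpos : 0 < (z + 1) ^ 2 - y ^ 2 := by
    have : y ^ 2 < (z + 1) ^ 2 := Nat.pow_lt_pow_left hyx (by norm_num)
    omega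
  set D := (z + 1) ^ 2 - y ^ 2 with hD
  have e1 : t1 ∣ D := sqf_dvd s1 fun p hp h => hd hp (by
    rw [hx4]; exact Dvd.dvd.mul_right (Dvd.dvd.mul_right (h.trans d1) _) _)
  have e2 : t2 ∣ D := sqf_dvd s2 fun p hp h => hd hp (by
    rw [hx4]; exact Dvd.dvd.mul_right (Dvd.dvd.mul_left (h.trans d2) _) _)
  have e3 : t3 ∣ D := sqf_dvd s3 fun p hp h => hd hp (by
    rw [hx4]; exact Dvd.dvd.mul_left (h.trans d3) _)
  have g12 : Nat.gcd t1 t2 ∣ 2 := by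
    refine gcd_dvd_two d1 d2 ?_
    have : Nat.gcd z (z + 1 + 1) ∣ (z + 1 + 1) - z := Nat.dvd_sub (Nat.gcd_dvd_right _ _) (Nat.gcd_dvd_left _ _)
    have e : (z + 1 + 1) - z = 2 := by omega
    rwa [e] at this
  have g13 : Nat.gcd t3 t1 ∣ 2 := by
    refine gcd_dvd_two d3 d1 ?_
    have ha : Nat.gcd ((z + 1) ^ 2 + 1) z ∣ (z + 1) ^ 2 + 1 := Nat.gcd_dvd_left _ _
    have hb : Nat.gcd ((z + 1) ^ 2 + 1) z ∣ z * (z + 2) := Dvd.dvd.mul_right (Nat.gcd_dvd_right _ _) _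
    have := Nat.dvd_sub ha hb
    have e : (z + 1) ^ 2 + 1 - z * (z + 2) = 2 := by
      have : (z + 1) ^ 2 + 1 = z * (z + 2) + 2 := by ring
      omega
    rwa [e] at this
  have g23 : Nat.gcd t3 t2 ∣ 2 := by
    refine gcd_dvd_two d3 d2 ?_
    have ha : Nat.gcd ((z + 1) ^ 2 + 1) (z + 1 + 1) ∣ (z + 1) ^ 2 + 1 := Nat.gcd_dvd_left _ _
    have hb : Nat.gcd ((z + 1) ^ 2 + 1) (z + 1 + 1) ∣ z * (z + 1 + 1) := Dvd.dvd.mul_left (Nat.gcd_dvd_right _ _) _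
    have := Nat.dvd_sub ha hb
    have e : (z + 1) ^ 2 + 1 - z * (z + 1 + 1) = 2 := by
      have : (z + 1) ^ 2 + 1 = z * (z + 1 + 1) + 2 := by ring
      omega
    rwa [e] at this
  have h12 : t1 * t2 ∣ 2 * D := by
    rw [← Nat.gcd_mul_lcm t1 t2]
    exact mul_dvd_mul g12 (Nat.lcm_dvd e1 e2)
  have h123 : t3 * (t1 * t2) ∣ 4 * (2 * D) := by
    rw [← Nat.gcd_mul_lcm t3 (t1 * t2)]
    refine mul_dvd_mul ?_ (Nat.lcm_dvd (Dvd.dvd.mul_left e3 _) h12)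
    exact (Nat.gcd_mul_right_dvd_mul_gcd _ _ _).trans (mul_dvd_mul g13 g23)
  have h4 := Nat.le_of_dvd (by positivity) h123
  have h5 : D < (z + 1) ^ 2 := by
    have : 1 ≤ y ^ 2 := Nat.one_le_pow _ _ hy
    omega
  calc t1 * t2 * t3 = t3 * (t1 * t2) := by ring
    _ ≤ 4 * (2 * D) := h4
    _ < 8 * (z + 1) ^ 2 := by omega

/-- gap principle for `x ^ 2 + 1 = t d ^ 2` -/
lemma pell_gap {t x d x' d' : ℤ} (ht : 1 ≤ t) (hx : 1 ≤ x) (hd : 1 ≤ d) (hd' : 1 ≤ d')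
    (h : x ^ 2 + 1 = t * d ^ 2) (h' : x' ^ 2 + 1 = t * d' ^ 2) (hlt : x < x') : 2 * x < x' := by
  have hx'0 : 1 ≤ x' := by linarith
  have hB : 0 < x' * d - x * d' := by
    by_contra hc
    push Not at hc
    have h1 : x' * d ≤ x * d' := by linarith
    have h2 : (x' * d) ^ 2 ≤ (x * d') ^ 2 := by
      have : 0 ≤ x' * d := mul_nonneg (by linarith) (by linarith)
      exact pow_le_pow_left₀ this h1 2
    have h3 : t * (x' * d) ^ 2 ≤ t * (x * d') ^ 2 := mul_le_mul_of_nonneg_left h2 (by linarith)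
    have h4 : t * (x' * d) ^ 2 = x' ^ 2 * (x ^ 2 + 1) := by rw [h]; ring
    have h5 : t * (x * d') ^ 2 = x ^ 2 * (x' ^ 2 + 1) := by rw [h']; ring
    rw [h4, h5] at h3
    nlinarith
  have hA : 0 < t * d * d' - x * x' := by
    by_contra hc
    push Not at hc
    have h1 : t * d * d' ≤ x * x' := by linarith
    have h2 : (t * d * d') ^ 2 ≤ (x * x') ^ 2 := by
      have : 0 ≤ t * d * d' := mul_nonneg (mul_nonneg (by linarith) (by linarith)) (by linarith)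
      exact pow_le_pow_left₀ this h1 2
    have h4 : (t * d * d') ^ 2 = (x ^ 2 + 1) * (x' ^ 2 + 1) := by rw [h, h']; ring
    rw [h4] at h2
    nlinarith [sq_nonneg x, sq_nonneg x']
  have hid : x' = (t * d * d' - x * x') * x + t * (x' * d - x * d') * d := by
    have : (t * d * d' - x * x') * x + t * (x' * d - x * d') * d = x' * (t * d ^ 2 - x ^ 2) := by ring
    rw [this, ← h]; ring
  have htd : x < t * d := by
    by_contra hc
    push Not at hc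
    have h1 : (t * d) ^ 2 ≤ x ^ 2 := pow_le_pow_left₀ (mul_nonneg (by linarith) (by linarith)) hc 2
    have h2 : (t * d) ^ 2 = t * (x ^ 2 + 1) := by rw [h]; ring
    rw [h2] at h1
    nlinarith [sq_nonneg x]
  have h6 : x ≤ (t * d * d' - x * x') * x := by nlinarith
  have h7 : t * d ≤ t * (x' * d - x * d') * d := by
    have : 0 < t * d := mul_pos (by linarith) (by linarith)
    nlinarith
  linarith

lemma card_gap {X : ℕ} {S : Finset ℕ} (hS : ∀ x ∈ S, 1 ≤ x ∧ x ≤ X)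
    (hgap : ∀ x ∈ S, ∀ x' ∈ S, x < x' → 2 * x < x') : S.card ≤ Nat.log 2 X + 1 := by
  rw [← card_range (Nat.log 2 X + 1)]
  refine Finset.card_le_card_of_injOn (fun x => Nat.log 2 x) ?_ ?_
  · intro x hx
    rw [mem_coe] at hx
    rw [mem_coe, mem_range]
    have := Nat.log_mono_right (b := 2) (hS x hx).2
    exact Nat.lt_succ_of_le this
  · have key : ∀ x ∈ S, ∀ x' ∈ S, x < x' → Nat.log 2 x < Nat.log 2 x' := by
      intro x hx x' hx' hlt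
      have h1 := hgap x hx x' hx' hlt
      have hx1 := (hS x hx).1
      have h2 : Nat.log 2 (x * 2) = Nat.log 2 x + 1 := Nat.log_mul_base (by norm_num) (by omega)
      have h3 : Nat.log 2 (x * 2) ≤ Nat.log 2 x' := Nat.log_mono_right (by omega)
      omega
    intro x hx x' hx' he
    rw [mem_coe] at hx hx'
    simp only at he
    rcases lt_trichotomy x x' with h | h | h
    · have := key x hx x' hx' h; omega
    · exact h
    · have := key x' hx' x hx h; omega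

/-- `x ≤ X` with `x ^ 2 + 1 = t d ^ 2`, `t ≤ A` -/
lemma count_pell (A X : ℕ) (S : Finset ℕ) (hS : ∀ x ∈ S, 1 ≤ x ∧ x ≤ X ∧ ∃ t d : ℕ, 1 ≤ t ∧ t ≤ A ∧ x ^ 2 + 1 = t * d ^ 2) :
    S.card ≤ A * (Nat.log 2 X + 1) := by
  classical
  have h1 : S ⊆ (Icc 1 A).biUnion (fun t => S.filter (fun x => ∃ d : ℕ, x ^ 2 + 1 = t * d ^ 2)) := by
    intro x hx
    obtain ⟨-, -, t, d, ht1, htA, he⟩ := hS x hx
    rw [mem_biUnion]
    exact ⟨t, mem_Icc.2 ⟨ht1, htA⟩, mem_filter.2 ⟨hx, d, he⟩⟩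
  refine (Finset.card_le_card h1).trans (Finset.card_biUnion_le.trans ?_)
  have h2 : ∀ t ∈ Icc 1 A, (S.filter (fun x => ∃ d : ℕ, x ^ 2 + 1 = t * d ^ 2)).card ≤ Nat.log 2 X + 1 := by
    intro t ht
    rw [mem_Icc] at ht
    refine card_gap (fun x hx => ?_) (fun x hx x' hx' hlt => ?_)
    · have := hS x (mem_filter.1 hx).1
      exact ⟨this.1, this.2.1⟩
    · obtain ⟨hxS, d, hd⟩ := mem_filter.1 hx
      obtain ⟨hxS', d', hd'⟩ := mem_filter.1 hx'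
      have hd0 : 1 ≤ d := by
        rcases Nat.eq_zero_or_pos d with h | h
        · rw [h] at hd; simp at hd
        · exact h
      have hd0' : 1 ≤ d' := by
        rcases Nat.eq_zero_or_pos d' with h | h
        · rw [h] at hd'; simp at hd'
        · exact h
      have := pell_gap (t := t) (x := x) (d := d) (x' := x') (d' := d') (by exact_mod_cast ht.1)
        (by exact_mod_cast (hS x hxS).1) (by exact_mod_cast hd0) (by exact_mod_cast hd0')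
        (by exact_mod_cast hd) (by exact_mod_cast hd') (by exact_mod_cast hlt)
      exact_mod_cast this
  refine (Finset.sum_le_sum h2).trans ?_
  simp

lemma sum_inv_sqrt (B : ℕ) : ∑ t ∈ Icc 1 B, 1 / Real.sqrt t ≤ 2 * Real.sqrt B := by
  induction B with
  | zero => simp
  | succ B ih =>
    rw [Finset.sum_Icc_succ_top (by omega)]
    have h0 : 0 < Real.sqrt ((B + 1 : ℕ) : ℝ) := Real.sqrt_pos.2 (by positivity)
    have h1 : Real.sqrt (B : ℝ) ≤ Real.sqrt ((B + 1 : ℕ) : ℝ) := Real.sqrt_le_sqrt (by push_cast; linarith)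
    have h2 : Real.sqrt ((B + 1 : ℕ) : ℝ) * Real.sqrt ((B + 1 : ℕ) : ℝ) = B + 1 := by
      rw [Real.mul_self_sqrt (by positivity)]; push_cast; ring
    have h3 : Real.sqrt (B : ℝ) * Real.sqrt (B : ℝ) = B := Real.mul_self_sqrt (by positivity)
    have h4 : 1 / Real.sqrt ((B + 1 : ℕ) : ℝ) ≤ 2 * (Real.sqrt ((B + 1 : ℕ) : ℝ) - Real.sqrt B) := by
      rw [div_le_iff₀ h0]
      nlinarith [Real.sqrt_nonneg (B : ℝ)]
    linarith

/-- `n ≤ X` with `n = t d ^ 2`, `t ≤ B` -/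
lemma count_sq (B X : ℕ) (S : Finset ℕ) (hS : ∀ n ∈ S, 1 ≤ n ∧ n ≤ X ∧ ∃ t d : ℕ, 1 ≤ t ∧ t ≤ B ∧ n = t * d ^ 2) :
    (S.card : ℝ) ≤ 2 * Real.sqrt (X * B) := by
  classical
  have h1 : S ⊆ (Icc 1 B).biUnion (fun t => (Icc 1 (Nat.sqrt (X / t))).image (fun d => t * d ^ 2)) := by
    intro n hn
    obtain ⟨hn1, hnX, t, d, ht1, htB, he⟩ := hS n hn
    rw [mem_biUnion]
    refine ⟨t, mem_Icc.2 ⟨ht1, htB⟩, mem_image.2 ⟨d, mem_Icc.2 ⟨?_, ?_⟩, he.symm⟩⟩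
    · rcases Nat.eq_zero_or_pos d with h | h
      · rw [h] at he; simp at he; omega
      · exact h
    · rw [Nat.le_sqrt, Nat.le_div_iff_mul_le ht1]
      have : d * d * t = t * d ^ 2 := by ring
      omega
  have h2 : (S.card : ℝ) ≤ ∑ t ∈ Icc 1 B, (Nat.sqrt (X / t) : ℝ) := by
    have := (Finset.card_le_card h1).trans Finset.card_biUnion_le
    have h3 : ∑ t ∈ Icc 1 B, ((Icc 1 (Nat.sqrt (X / t))).image (fun d => t * d ^ 2)).card ≤
        ∑ t ∈ Icc 1 B, Nat.sqrt (X / t) := by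
      refine Finset.sum_le_sum fun t _ => ?_
      refine Finset.card_image_le.trans ?_
      simp
    exact_mod_cast this.trans h3
  have h4 : ∀ t ∈ Icc 1 B, (Nat.sqrt (X / t) : ℝ) ≤ Real.sqrt X * (1 / Real.sqrt t) := by
    intro t ht
    rw [mem_Icc] at ht
    have h5 : (Nat.sqrt (X / t) : ℝ) ≤ Real.sqrt ((X / t : ℕ) : ℝ) := Real.nat_sqrt_le_real_sqrt
    refine h5.trans ?_
    have h6 : ((X / t : ℕ) : ℝ) ≤ (X : ℝ) / t := Nat.cast_div_le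
    refine (Real.sqrt_le_sqrt h6).trans (le_of_eq ?_)
    rw [Real.sqrt_div (by positivity)]
    ring
  refine h2.trans ((Finset.sum_le_sum h4).trans ?_)
  rw [← Finset.mul_sum, Real.sqrt_mul (by positivity)]
  have := sum_inv_sqrt B
  have h7 : 0 ≤ Real.sqrt (X : ℝ) := Real.sqrt_nonneg _
  nlinarith

end Pool.Agent.Helper577Eps
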