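import Pool.Agent.helper577_eps.Two

set_option autoImplicit false

open Finset

namespace Pool.Agent.Helper577Eps

/-- the exceptional integers -/
def Bad (x : ℕ) : Prop := ∃ y : ℕ, 1 ≤ y ∧ y < x ∧ Sim (x ^ 2 - 1) (y ^ 2 - 1) ∧ Sim (x ^ 4 - 1) (y ^ 4 - 1)

/-- counting with parameters -/
lemma count_param (A Z X : ℕ) (hA : 1 ≤ A) (hZ : 1 ≤ Z) (S : Finset ℕ) (hS : ∀ x ∈ S, x ≤ X ∧ Bad x) :
    (S.card : ℝ) ≤ A * (Nat.log 2 X + 1) + (2 * X / Real.sqrt (3 * A / 32) + Z) * (1 + Real.log Z) +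
      (X ^ 2 / Z ^ 2 : ℕ) * (Nat.log 2 X + 1) := by
  classical
  set E := Real.sqrt (3 * A / 32) with hE
  have hAr : (0 : ℝ) < A := by exact_mod_cast hA
  have hE0 : 0 < E := Real.sqrt_pos.2 (by positivity)
  set S3 := S.filter (fun x => ∃ t d : ℕ, 1 ≤ t ∧ t ≤ A ∧ x ^ 2 + 1 = t * d ^ 2) with hS3
  set S4 := S.filter (fun x => ∃ d1 d2 : ℕ, 1 ≤ d1 ∧ 1 ≤ d2 ∧ d1 ^ 2 ∣ x - 1 ∧ d2 ^ 2 ∣ x + 1 ∧
      E < (d1 : ℝ) * d2 ∧ d1 * d2 ≤ Z) with hS4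
  set S5 := S.filter (fun x => ∃ m e : ℕ, 1 ≤ m ∧ m ≤ X ^ 2 / Z ^ 2 ∧ x ^ 2 = m * e ^ 2 + 1) with hS5
  have hx2 : ∀ x ∈ S, 2 ≤ x ∧ x ≤ X := by
    intro x hx
    obtain ⟨hxX, y, hy1, hyx, -, -⟩ := hS x hx
    exact ⟨by omega, hxX⟩
  have hsub : S ⊆ S3 ∪ (S4 ∪ S5) := by
    intro x hx
    obtain ⟨hxX, y, hy1, hyx, h1, h2⟩ := hS x hx
    have hx2' := (hx2 x hx).1
    obtain ⟨t1, d1, e1, q1⟩ := Nat.sq_mul_squarefree (x - 1)
    obtain ⟨t2, d2, e2, q2⟩ := Nat.sq_mul_squarefree (x + 1)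
    obtain ⟨t3, d3, e3, q3⟩ := Nat.sq_mul_squarefree (x ^ 2 + 1)
    have p1 : 1 ≤ t1 := Nat.one_le_iff_ne_zero.2 q1.ne_zero
    have p2 : 1 ≤ t2 := Nat.one_le_iff_ne_zero.2 q2.ne_zero
    have p3 : 1 ≤ t3 := Nat.one_le_iff_ne_zero.2 q3.ne_zero
    have hprod := sqf_prod hy1 hyx h1 h2 q1 q2 q3 ⟨d1 ^ 2, by rw [← e1]; ring⟩ ⟨d2 ^ 2, by rw [← e2]; ring⟩
      ⟨d3 ^ 2, by rw [← e3]; ring⟩
    have k1 : 1 ≤ d1 := by
      rcases Nat.eq_zero_or_pos d1 with h | h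
      · rw [h] at e1; simp at e1; omega
      · exact h
    have k2 : 1 ≤ d2 := by
      rcases Nat.eq_zero_or_pos d2 with h | h
      · rw [h] at e2; simp at e2
      · exact h
    rw [mem_union, mem_union, hS3, hS4, hS5, mem_filter, mem_filter, mem_filter]
    by_cases c3 : t3 ≤ A
    · left
      exact ⟨hx, t3, d3, p3, c3, by rw [← e3]; ring⟩
    · right
      push Not at c3
      have hsq : x ^ 2 = t1 * t2 * (d1 * d2) ^ 2 + 1 := by
        have h3 : (x - 1) * (x + 1) = t1 * t2 * (d1 * d2) ^ 2 := by rw [← e1, ← e2]; ring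
        obtain ⟨z, rfl⟩ : ∃ z, x = z + 1 := ⟨x - 1, by omega⟩
        rw [Nat.add_sub_cancel] at h3
        rw [← h3]; ring
      have hmA : t1 * t2 * A < 8 * x ^ 2 := lt_of_le_of_lt (Nat.mul_le_mul_left _ c3.le) hprod
      by_cases cZ : d1 * d2 ≤ Z
      · left
        refine ⟨hx, d1, d2, k1, k2, ⟨t1, by rw [← e1]⟩, ⟨t2, by rw [← e2]⟩, ?_, cZ⟩
        rw [hE, Real.sqrt_lt' (by positivity)]
        have r1 : (x : ℝ) ^ 2 = t1 * t2 * ((d1 : ℝ) * d2) ^ 2 + 1 := by exact_mod_cast hsq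
        have r2 : (t1 : ℝ) * t2 * A < 8 * (x : ℝ) ^ 2 := by exact_mod_cast hmA
        have r3 : (4 : ℝ) ≤ (x : ℝ) ^ 2 := by
          have : (2 : ℝ) ≤ x := by exact_mod_cast hx2'
          nlinarith
        have r4 : 0 < ((d1 : ℝ) * d2) ^ 2 := by positivity
        have r5 : (t1 : ℝ) * t2 * A * ((d1 : ℝ) * d2) ^ 2 < 8 * (x : ℝ) ^ 2 * ((d1 : ℝ) * d2) ^ 2 :=
          mul_lt_mul_of_pos_right r2 r4
        have r6 : (t1 : ℝ) * t2 * A * ((d1 : ℝ) * d2) ^ 2 = A * ((x : ℝ) ^ 2 - 1) := by rw [r1]; ring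
        rw [r6] at r5
        have r7 : 3 / 4 * (x : ℝ) ^ 2 * A ≤ A * ((x : ℝ) ^ 2 - 1) := by nlinarith
        have r8 : 0 < (x : ℝ) ^ 2 := by linarith
        have r9 : (x : ℝ) ^ 2 * (3 * A / 32) < (x : ℝ) ^ 2 * ((d1 : ℝ) * d2) ^ 2 := by linarith
        exact lt_of_mul_lt_mul_left r9 r8.le
      · right
        push Not at cZ
        refine ⟨hx, t1 * t2, d1 * d2, Nat.mul_pos p1 p2, ?_, hsq⟩
        rw [Nat.le_div_iff_mul_le (by positivity)]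
        have h4 : Z ^ 2 ≤ (d1 * d2) ^ 2 := Nat.pow_le_pow_left cZ.le 2
        have h5 : t1 * t2 * Z ^ 2 ≤ t1 * t2 * (d1 * d2) ^ 2 := Nat.mul_le_mul_left _ h4
        have h6 : x ^ 2 ≤ X ^ 2 := Nat.pow_le_pow_left hxX 2
        omega
  have k3 : S3.card ≤ A * (Nat.log 2 X + 1) := by
    refine count_pell A X S3 fun x hx => ?_
    rw [hS3, mem_filter] at hx
    have := hx2 x hx.1
    exact ⟨by omega, this.2, hx.2⟩
  have k4 : (S4.card : ℝ) ≤ (2 * X / E + Z) * (1 + Real.log Z) := by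
    refine count_pairs E hE0 Z X S4 fun x hx => ?_
    rw [hS4, mem_filter] at hx
    have := hx2 x hx.1
    exact ⟨this.1, this.2, hx.2⟩
  have k5 : S5.card ≤ X ^ 2 / Z ^ 2 * (Nat.log 2 X + 1) := by
    refine count_pell2 _ X S5 fun x hx => ?_
    rw [hS5, mem_filter] at hx
    have := hx2 x hx.1
    exact ⟨this.1, this.2, hx.2⟩
  have hc := (Finset.card_le_card hsub).trans ((Finset.card_union_le _ _).trans
    (Nat.add_le_add_left (Finset.card_union_le _ _) _))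
  have hc' : (S.card : ℝ) ≤ S3.card + (S4.card + S5.card) := by exact_mod_cast hc
  have k3' : (S3.card : ℝ) ≤ A * (Nat.log 2 X + 1) := by exact_mod_cast k3
  have k5' : (S5.card : ℝ) ≤ (X ^ 2 / Z ^ 2 : ℕ) * (Nat.log 2 X + 1) := by exact_mod_cast k5
  linarith

theorem count_bad (X : ℕ) (hX : 2 ≤ X) (S : Finset ℕ) (hS : ∀ x ∈ S, x ≤ X ∧ Bad x) :
    (S.card : ℝ) ≤ 40 * (X : ℝ) ^ (2 / 3 : ℝ) * Real.log X := by
  have hX0 : (0 : ℝ) < X := by exact_mod_cast (by omega : 0 < X)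
  have hX1 : (1 : ℝ) ≤ X := by exact_mod_cast (by omega : 1 ≤ X)
  set A := ⌈(X : ℝ) ^ (2 / 3 : ℝ)⌉₊ with hA
  set U := (X : ℝ) ^ (2 / 3 : ℝ) with hU
  have h1 : (1 : ℝ) ≤ U := Real.one_le_rpow hX1 (by norm_num)
  have hA1 : U ≤ A := Nat.le_ceil _
  have hA2 : (A : ℝ) ≤ 2 * U := by
    have := Nat.ceil_lt_add_one (show 0 ≤ U by positivity)
    rw [← hA] at this
    linarith
  have hA0 : 1 ≤ A := by
    have : (1 : ℝ) ≤ A := h1.trans hA1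
    exact_mod_cast this
  refine (count_param A A X hA0 hA0 S hS).trans ?_
  have hl2 : 0.69 < Real.log 2 := by have := Real.log_two_gt_d9; linarith
  have hl2' : Real.log 2 < 0.7 := by have := Real.log_two_lt_d9; linarith
  have hlX : Real.log 2 ≤ Real.log X := Real.log_le_log (by norm_num) (by exact_mod_cast hX)
  have hlog : (Nat.log 2 X : ℝ) + 1 ≤ 3 * Real.log X := by
    have h5 : (Nat.log 2 X : ℝ) * Real.log 2 ≤ Real.log X := by
      rw [← Real.log_pow]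
      refine Real.log_le_log (by positivity) ?_
      exact_mod_cast Nat.pow_log_le_self 2 (by omega)
    nlinarith
  have hlogA : 1 + Real.log A ≤ 3.2 * Real.log X := by
    have h2 : Real.log A ≤ Real.log (2 * U) := Real.log_le_log (by exact_mod_cast hA0) hA2
    rw [Real.log_mul (by norm_num) (by positivity), hU, Real.log_rpow hX0] at h2
    linarith
  have hX3 : (X : ℝ) = U * (X : ℝ) ^ (1 / 3 : ℝ) := by
    rw [hU, ← Real.rpow_add hX0]; norm_num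
  have hU2 : U = (X : ℝ) ^ (1 / 3 : ℝ) * (X : ℝ) ^ (1 / 3 : ℝ) := by
    rw [hU, ← Real.rpow_add hX0]; norm_num
  set V := (X : ℝ) ^ (1 / 3 : ℝ) with hV
  have hV0 : 0 < V := by positivity
  have hE : 0.3 * V ≤ Real.sqrt (3 * A / 32) := by
    refine Real.le_sqrt_of_sq_le ?_
    have : (0.3 * V) ^ 2 = 0.09 * U := by rw [hU2]; ring
    rw [this]
    linarith
  have h6 : 2 * (X : ℝ) / Real.sqrt (3 * A / 32) ≤ 7 * U := by
    rw [div_le_iff₀ (by linarith [mul_pos (show (0 : ℝ) < 0.3 by norm_num) hV0])]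
    have : 7 * U * (0.3 * V) ≤ 7 * U * Real.sqrt (3 * A / 32) := by gcongr
    nlinarith [mul_pos (show (0 : ℝ) < U by linarith) hV0]
  have h7 : ((X ^ 2 / A ^ 2 : ℕ) : ℝ) ≤ U := by
    have h8 : ((X ^ 2 / A ^ 2 : ℕ) : ℝ) ≤ ((X ^ 2 : ℕ) : ℝ) / ((A ^ 2 : ℕ) : ℝ) := Nat.cast_div_le
    refine h8.trans ?_
    have hA0r : (0 : ℝ) < ((A ^ 2 : ℕ) : ℝ) := by positivity
    rw [div_le_iff₀ hA0r]
    push_cast
    have h9 : U * U ^ 2 ≤ U * (A : ℝ) ^ 2 := by gcongr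
    refine le_trans (le_of_eq ?_) h9
    have : (X : ℝ) ^ 2 = (U * V) ^ 2 := by rw [← hX3]
    rw [this]
    calc (U * V) ^ 2 = U ^ 2 * (V * V) := by ring
      _ = U ^ 2 * U := by rw [← hU2]
      _ = U * U ^ 2 := by ring
  have hlX0 : 0 < Real.log X := by linarith
  have hL0 : (0 : ℝ) ≤ (Nat.log 2 X : ℝ) + 1 := by positivity
  have b1 : (A : ℝ) * ((Nat.log 2 X : ℝ) + 1) ≤ 2 * U * (3 * Real.log X) := by gcongr
  have b2 : (2 * (X : ℝ) / Real.sqrt (3 * A / 32) + A) * (1 + Real.log A) ≤ (7 * U + 2 * U) * (3.2 * Real.log X) := by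
    have : 0 ≤ 2 * (X : ℝ) / Real.sqrt (3 * A / 32) + A := by positivity
    have h10 : 2 * (X : ℝ) / Real.sqrt (3 * A / 32) + A ≤ 7 * U + 2 * U := by linarith
    have h11 : 0 ≤ 3.2 * Real.log X := by positivity
    calc _ ≤ (2 * (X : ℝ) / Real.sqrt (3 * A / 32) + A) * (3.2 * Real.log X) := by gcongr
      _ ≤ _ := by gcongr
  have b3 : ((X ^ 2 / A ^ 2 : ℕ) : ℝ) * ((Nat.log 2 X : ℝ) + 1) ≤ U * (3 * Real.log X) := by gcongr
  have hUL : 0 ≤ U * Real.log X := by positivity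
  nlinarith

end Pool.Agent.Helper577Eps
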