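import Pool.Agent.helper577_eps.Two

set_option autoImplicit false

open Finset

namespace Pool.Agent.Helper577Eps

/-- the squarefree parts of `n` and `n + 1` have product at most `2 n` -/
lemma motz_core {m n t1 t2 : ℕ} (hmn : m < n) (h1 : Sim m (n + 1)) (h2 : Sim n (m + 1))
    (s1 : Squarefree t1) (s2 : Squarefree t2) (d1 : t1 ∣ n) (d2 : t2 ∣ n + 1) : t1 * t2 ≤ 2 * n := by
  have e1 : t1 ∣ m + n + 1 := sqf_dvd s1 fun p hp hpt => by
    have a1 : p ∣ n := hpt.trans d1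
    have a2 : p ∣ m + 1 := (h2 p hp).1 a1
    have := Nat.dvd_add a2 a1
    have e : m + 1 + n = m + n + 1 := by ring
    rwa [e] at this
  have e2 : t2 ∣ m + n + 1 := sqf_dvd s2 fun p hp hpt => by
    have a1 : p ∣ n + 1 := hpt.trans d2
    have a2 : p ∣ m := (h1 p hp).2 a1
    have := Nat.dvd_add a2 a1
    have e : m + (n + 1) = m + n + 1 := by ring
    rwa [e] at this
  have hc : Nat.Coprime t1 t2 := Nat.Coprime.coprime_dvd_left d1
    (Nat.Coprime.coprime_dvd_right d2 (by simp))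
  have := Nat.le_of_dvd (by omega) (hc.mul_dvd_of_dvd_of_dvd e1 e2)
  omega

/-- larger members -/
def MBad (n : ℕ) : Prop := ∃ m : ℕ, 1 ≤ m ∧ m < n ∧ Sim m (n + 1) ∧ Sim n (m + 1)

lemma motz_count (X : ℕ) (hX : 2 ≤ X) (S : Finset ℕ) (hS : ∀ n ∈ S, n ≤ X ∧ MBad n) :
    (S.card : ℝ) ≤ 100 * (X : ℝ) ^ (2 / 3 : ℝ) * Real.log X := by
  classical
  have hXr : (2 : ℝ) ≤ X := by exact_mod_cast hX
  have hX0 : (0 : ℝ) < X := by linarith
  set Y : ℝ := (X : ℝ) ^ (1 / 3 : ℝ) with hY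
  have hY1 : 1 ≤ Y := Real.one_le_rpow (by linarith) (by norm_num)
  have hY3 : Y ^ 3 = X := by
    rw [hY, ← Real.rpow_natCast, ← Real.rpow_mul hX0.le]
    norm_num
  set W : ℝ := (X : ℝ) ^ (2 / 3 : ℝ) with hW
  have hY2 : Y ^ 2 = W := by
    rw [hY, hW, ← Real.rpow_natCast, ← Real.rpow_mul hX0.le]
    norm_num
  have hW1 : 1 ≤ W := by rw [← hY2]; exact one_le_pow₀ hY1
  have hW3 : W ^ 3 = (X : ℝ) ^ 2 := by rw [← hY2, ← hY3]; ring
  set A := ⌈W⌉₊ with hA
  have hA1 : W ≤ A := Nat.le_ceil _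
  have hA2 : (A : ℝ) ≤ 2 * W := by
    have := Nat.ceil_lt_add_one (show 0 ≤ W by positivity)
    rw [← hA] at this
    linarith
  set Z := ⌊2 * W⌋₊ with hZ
  have hZ1 : (Z : ℝ) ≤ 2 * W := Nat.floor_le (by positivity)
  have hZ0 : 1 ≤ Z := Nat.le_floor (by push_cast; linarith)
  set E : ℝ := Y / 2 with hE
  have hE0 : 0 < E := by positivity
  set S0 := S.filter (fun n : ℕ => (n : ℝ) ≤ W) with hS0
  set S1 := S.filter (fun n : ℕ => ∃ m e : ℕ, 1 ≤ m ∧ m ≤ A ∧ (2 * n + 1) ^ 2 = m * e ^ 2 + 1) with hS1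
  set S2 := S.filter (fun n : ℕ => ∃ d1 d2 : ℕ, 1 ≤ d1 ∧ 1 ≤ d2 ∧ d1 ^ 2 ∣ n ∧ d2 ^ 2 ∣ n + 1 ∧
      E < (d1 : ℝ) * d2 ∧ d1 * d2 ≤ Z) with hS2
  have hn1 : ∀ n ∈ S, 1 ≤ n := by
    intro n hn
    obtain ⟨-, m, hm, hmn, -, -⟩ := hS n hn
    omega
  have hsub : S ⊆ S0 ∪ (S1 ∪ S2) := by
    intro n hn
    obtain ⟨hnX, m, hm, hmn, h1, h2⟩ := hS n hn
    have hnpos := hn1 n hn
    rw [mem_union, mem_union]
    by_cases c0 : (n : ℝ) ≤ W
    · left; rw [hS0, mem_filter]; exact ⟨hn, c0⟩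
    right
    push Not at c0
    obtain ⟨t1, d1, e1, q1⟩ := Nat.sq_mul_squarefree n
    obtain ⟨t2, d2, e2, q2⟩ := Nat.sq_mul_squarefree (n + 1)
    have g1 : d1 ^ 2 ∣ n := ⟨t1, e1.symm⟩
    have g2 : d2 ^ 2 ∣ n + 1 := ⟨t2, e2.symm⟩
    have hcore := motz_core hmn h1 h2 q1 q2 ⟨d1 ^ 2, by rw [← e1]; ring⟩ ⟨d2 ^ 2, by rw [← e2]; ring⟩
    have p1 : 1 ≤ t1 := Nat.one_le_iff_ne_zero.2 q1.ne_zero
    have p2 : 1 ≤ t2 := Nat.one_le_iff_ne_zero.2 q2.ne_zero
    have k1 : 1 ≤ d1 := by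
      rcases Nat.eq_zero_or_pos d1 with h | h
      · rw [h] at e1; simp at e1; omega
      · exact h
    have k2 : 1 ≤ d2 := by
      rcases Nat.eq_zero_or_pos d2 with h | h
      · rw [h] at e2; simp at e2
      · exact h
    have hprod : t1 * t2 * (d1 * d2) ^ 2 = n * (n + 1) := by
      calc t1 * t2 * (d1 * d2) ^ 2 = (d1 ^ 2 * t1) * (d2 ^ 2 * t2) := by ring
        _ = n * (n + 1) := by rw [e1, e2]
    have hprodr : (t1 : ℝ) * t2 * ((d1 : ℝ) * d2) ^ 2 = n * (n + 1) := by exact_mod_cast hprod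
    have hcr : (t1 : ℝ) * t2 ≤ 2 * n := by exact_mod_cast hcore
    have hnr : (0 : ℝ) < n := by exact_mod_cast hnpos
    have hnXr : (n : ℝ) ≤ X := by exact_mod_cast hnX
    have htr : (1 : ℝ) ≤ (t1 : ℝ) * t2 := by exact_mod_cast Nat.mul_pos p1 p2
    by_cases c1 : t1 * t2 ≤ A
    · left
      rw [hS1, mem_filter]
      refine ⟨hn, t1 * t2, 2 * (d1 * d2), Nat.mul_pos p1 p2, c1, ?_⟩
      have : t1 * t2 * (2 * (d1 * d2)) ^ 2 = 4 * (n * (n + 1)) := by rw [← hprod]; ring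
      rw [this]; ring
    · right
      push Not at c1
      rw [hS2, mem_filter]
      refine ⟨hn, d1, d2, k1, k2, g1, g2, ?_, ?_⟩
      · by_contra hcon
        push Not at hcon
        have h3 : ((d1 : ℝ) * d2) ^ 2 ≤ E ^ 2 := by gcongr
        have h4 : E ^ 2 = W / 4 := by rw [hE, ← hY2]; ring
        have h5 : (n : ℝ) * (n + 1) ≤ 2 * n * (W / 4) := by
          rw [← hprodr, ← h4]
          gcongr
        have h6 : (n : ℝ) + 1 ≤ W / 2 := by
          have : (n : ℝ) * (n + 1) ≤ n * (W / 2) := by linarith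
          exact le_of_mul_le_mul_left this hnr
        linarith
      · refine Nat.le_floor ?_
        by_contra hcon
        push Not at hcon
        have h3 : (2 * W) ^ 2 < ((d1 * d2 : ℕ) : ℝ) ^ 2 := by gcongr
        push_cast at h3
        have h4 : W < (t1 : ℝ) * t2 := by
          have : (A : ℝ) < (t1 : ℝ) * t2 := by exact_mod_cast c1
          linarith
        have h5 : W * (2 * W) ^ 2 < n * (n + 1) := by
          rw [← hprodr]
          calc W * (2 * W) ^ 2 < ((t1 : ℝ) * t2) * (2 * W) ^ 2 := by gcongr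
            _ < ((t1 : ℝ) * t2) * ((d1 : ℝ) * d2) ^ 2 := by gcongr
        have h6 : W * (2 * W) ^ 2 = 4 * (X : ℝ) ^ 2 := by rw [← hW3]; ring
        rw [h6] at h5
        nlinarith
  have hlogX : 0.69 ≤ Real.log X := by
    have h1 : Real.log 2 ≤ Real.log X := Real.log_le_log (by norm_num) hXr
    have := Real.log_two_gt_d9
    linarith
  have b0 : (S0.card : ℝ) ≤ 2 * W * Real.log X := by
    have h1 : S0 ⊆ Icc 1 ⌊W⌋₊ := by
      intro n hn
      rw [hS0, mem_filter] at hn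
      rw [mem_Icc]
      exact ⟨hn1 n hn.1, Nat.le_floor hn.2⟩
    have h2 := Finset.card_le_card h1
    rw [Nat.card_Icc, Nat.add_sub_cancel] at h2
    have h3 : (S0.card : ℝ) ≤ ⌊W⌋₊ := by exact_mod_cast h2
    have h4 : (⌊W⌋₊ : ℝ) ≤ W := Nat.floor_le (by positivity)
    nlinarith
  have hinj : Function.Injective (fun n : ℕ => 2 * n + 1) := by
    intro a b hab; simp only at hab; omega
  have hlog3 : Real.log ((2 * X + 1 : ℕ) : ℝ) ≤ 3 * Real.log X := by
    rw [show (3 : ℝ) = ((3 : ℕ) : ℝ) by norm_num, ← Real.log_pow]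
    refine Real.log_le_log (by positivity) ?_
    push_cast
    nlinarith [pow_pos hX0 2, pow_pos hX0 3]
  have b1 : (S1.card : ℝ) ≤ 16 * W * Real.log X := by
    have h1 : (S1.image (fun n : ℕ => 2 * n + 1)).card ≤ A * (Nat.log 2 (2 * X + 1) + 1) := by
      refine count_pell2 A (2 * X + 1) _ fun x hx => ?_
      rw [mem_image] at hx
      obtain ⟨n, hn, rfl⟩ := hx
      rw [hS1, mem_filter] at hn
      have h2 := hn1 n hn.1
      have h3 := (hS n hn.1).1
      exact ⟨by omega, by omega, hn.2⟩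
    rw [Finset.card_image_of_injective _ hinj] at h1
    have h2 : (S1.card : ℝ) ≤ A * (Nat.log 2 (2 * X + 1) + 1) := by exact_mod_cast h1
    have h3 : (Nat.log 2 (2 * X + 1) : ℝ) * Real.log 2 ≤ Real.log ((2 * X + 1 : ℕ) : ℝ) := by
      rw [← Real.log_pow]
      refine Real.log_le_log (by positivity) ?_
      exact_mod_cast Nat.pow_log_le_self 2 (by omega)
    have h4 := Real.log_two_gt_d9
    have h5 : (Nat.log 2 (2 * X + 1) : ℝ) ≤ 5 * Real.log X := by
      have : (0 : ℝ) ≤ Nat.log 2 (2 * X + 1) := by positivity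
      nlinarith
    have h6 : (Nat.log 2 (2 * X + 1) : ℝ) + 1 ≤ 8 * Real.log X := by linarith
    have h7 : (0 : ℝ) ≤ (Nat.log 2 (2 * X + 1) : ℝ) + 1 := by positivity
    calc (S1.card : ℝ) ≤ A * (Nat.log 2 (2 * X + 1) + 1) := h2
      _ ≤ (2 * W) * (8 * Real.log X) := by gcongr
      _ = _ := by ring
  have b2 : (S2.card : ℝ) ≤ 70 * W * Real.log X := by
    have h1 := count_pairs E hE0 Z (2 * X + 1) (S2.image (fun n : ℕ => 2 * n + 1)) (fun x hx => by
      rw [mem_image] at hx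
      obtain ⟨n, hn, rfl⟩ := hx
      rw [hS2, mem_filter] at hn
      obtain ⟨hnS, d1, d2, k1, k2, g1, g2, hE', hZ'⟩ := hn
      have h2 := hn1 n hnS
      have h3 := (hS n hnS).1
      refine ⟨by omega, by omega, d1, d2, k1, k2, ?_, ?_, hE', hZ'⟩
      · have : 2 * n + 1 - 1 = 2 * n := by omega
        rw [this]; exact g1.trans (Dvd.intro_left 2 rfl)
      · have : 2 * n + 1 + 1 = 2 * (n + 1) := by ring
        rw [this]; exact g2.trans (Dvd.intro_left 2 rfl))
    rw [Finset.card_image_of_injective _ hinj] at h1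
    refine h1.trans ?_
    have h2 : 2 * ((2 * X + 1 : ℕ) : ℝ) / E ≤ 12 * W := by
      rw [div_le_iff₀ hE0, hE, ← hY2]
      have : 12 * Y ^ 2 * (Y / 2) = 6 * X := by rw [← hY3]; ring
      rw [this]
      push_cast
      linarith
    have hZr : (1 : ℝ) ≤ Z := by exact_mod_cast hZ0
    have h3 : Real.log Z ≤ 1 + Real.log X := by
      have h4 : (Z : ℝ) ≤ 2 * X := by
        have : W ≤ X := by
          calc W ≤ (X : ℝ) ^ (1 : ℝ) := Real.rpow_le_rpow_of_exponent_le (by linarith) (by norm_num)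
            _ = X := Real.rpow_one _
        linarith
      have h5 : Real.log Z ≤ Real.log (2 * X) := Real.log_le_log (by linarith) h4
      rw [Real.log_mul (by norm_num) hX0.ne'] at h5
      have := Real.log_two_lt_d9
      linarith
    have h6 : 1 + Real.log Z ≤ 5 * Real.log X := by linarith
    have h7 : 0 ≤ 1 + Real.log Z := by
      have := Real.log_nonneg hZr
      linarith
    calc (2 * ((2 * X + 1 : ℕ) : ℝ) / E + Z) * (1 + Real.log Z) ≤ (12 * W + 2 * W) * (5 * Real.log X) := by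
          gcongr
      _ = _ := by ring
  have hc := (Finset.card_le_card hsub).trans ((Finset.card_union_le _ _).trans
    (Nat.add_le_add_left (Finset.card_union_le _ _) _))
  have hc' : (S.card : ℝ) ≤ S0.card + (S1.card + S2.card) := by exact_mod_cast hc
  have : 0 ≤ W * Real.log X := by positivity
  nlinarith

end Pool.Agent.Helper577Eps
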