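import Pool.Agent.helper577_eps.Basic

set_option autoImplicit false

open Finset

namespace Pool.Agent.Helper577Eps

/-- gap principle for `x ^ 2 - 1 = m e ^ 2` -/
lemma pell_gap2 {m x e x' e' : ℤ} (hm : 1 ≤ m) (hx : 2 ≤ x) (he : 1 ≤ e) (he' : 1 ≤ e')
    (h : x ^ 2 - 1 = m * e ^ 2) (h' : x' ^ 2 - 1 = m * e' ^ 2) (hlt : x < x') : 2 * x < x' := by
  have hx'0 : 1 ≤ x' := by linarith
  have hm2 : 2 ≤ m := by
    by_contra hc
    have hm1 : m = 1 := by omega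
    rw [hm1, one_mul] at h
    have h1 : e < x := by
      by_contra hc'
      push Not at hc'
      nlinarith
    nlinarith
  have hB : 0 < x * e' - x' * e := by
    by_contra hc
    push Not at hc
    have h1 : x * e' ≤ x' * e := by linarith
    have h2 : (x * e') ^ 2 ≤ (x' * e) ^ 2 := by
      have : 0 ≤ x * e' := mul_nonneg (by linarith) (by linarith)
      exact pow_le_pow_left₀ this h1 2
    have h3 : m * (x * e') ^ 2 ≤ m * (x' * e) ^ 2 := mul_le_mul_of_nonneg_left h2 (by linarith)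
    have h4 : m * (x * e') ^ 2 = x ^ 2 * (x' ^ 2 - 1) := by rw [h']; ring
    have h5 : m * (x' * e) ^ 2 = x' ^ 2 * (x ^ 2 - 1) := by rw [h]; ring
    rw [h4, h5] at h3
    nlinarith
  have hA : 0 < x * x' - m * e * e' := by
    by_contra hc
    push Not at hc
    have h1 : x * x' ≤ m * e * e' := by linarith
    have h2 : (x * x') ^ 2 ≤ (m * e * e') ^ 2 := by
      have : 0 ≤ x * x' := mul_nonneg (by linarith) (by linarith)
      exact pow_le_pow_left₀ this h1 2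
    have h4 : (m * e * e') ^ 2 = (x ^ 2 - 1) * (x' ^ 2 - 1) := by rw [h, h']; ring
    rw [h4] at h2
    nlinarith [sq_nonneg x, sq_nonneg x']
  have hid : x' = (x * x' - m * e * e') * x + m * (x * e' - x' * e) * e := by
    have : (x * x' - m * e * e') * x + m * (x * e' - x' * e) * e = x' * (x ^ 2 - m * e ^ 2) := by ring
    rw [this, ← h]; ring
  have hme : x < m * e := by
    by_contra hc
    push Not at hc
    have h1 : (m * e) ^ 2 ≤ x ^ 2 := pow_le_pow_left₀ (mul_nonneg (by linarith) (by linarith)) hc 2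
    have h2 : (m * e) ^ 2 = m * (x ^ 2 - 1) := by rw [h]; ring
    rw [h2] at h1
    nlinarith
  have h6 : x ≤ (x * x' - m * e * e') * x := by nlinarith
  have h7 : m * e ≤ m * (x * e' - x' * e) * e := by
    have : 0 < m * e := mul_pos (by linarith) (by linarith)
    nlinarith
  linarith

/-- `2 ≤ x ≤ X` with `x ^ 2 = m e ^ 2 + 1`, `m ≤ M` -/
lemma count_pell2 (M X : ℕ) (S : Finset ℕ)
    (hS : ∀ x ∈ S, 2 ≤ x ∧ x ≤ X ∧ ∃ m e : ℕ, 1 ≤ m ∧ m ≤ M ∧ x ^ 2 = m * e ^ 2 + 1) :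
    S.card ≤ M * (Nat.log 2 X + 1) := by
  classical
  have h1 : S ⊆ (Icc 1 M).biUnion (fun m => S.filter (fun x => ∃ e : ℕ, x ^ 2 = m * e ^ 2 + 1)) := by
    intro x hx
    obtain ⟨-, -, t, d, ht1, htA, he⟩ := hS x hx
    rw [mem_biUnion]
    exact ⟨t, mem_Icc.2 ⟨ht1, htA⟩, mem_filter.2 ⟨hx, d, he⟩⟩
  refine (Finset.card_le_card h1).trans (Finset.card_biUnion_le.trans ?_)
  have h2 : ∀ m ∈ Icc 1 M, (S.filter (fun x => ∃ e : ℕ, x ^ 2 = m * e ^ 2 + 1)).card ≤ Nat.log 2 X + 1 := by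
    intro t ht
    rw [mem_Icc] at ht
    refine card_gap (fun x hx => ?_) (fun x hx x' hx' hlt => ?_)
    · have := hS x (mem_filter.1 hx).1
      exact ⟨by omega, this.2.1⟩
    · obtain ⟨hxS, d, hd⟩ := mem_filter.1 hx
      obtain ⟨hxS', d', hd'⟩ := mem_filter.1 hx'
      have hx2 := (hS x hxS).1
      have hx2' := (hS x' hxS').1
      have hd0 : 1 ≤ d := by
        rcases Nat.eq_zero_or_pos d with h | h
        · rw [h] at hd
          have : x ^ 2 = 1 := by simpa using hd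
          nlinarith
        · exact h
      have hd0' : 1 ≤ d' := by
        rcases Nat.eq_zero_or_pos d' with h | h
        · rw [h] at hd'
          have : x' ^ 2 = 1 := by simpa using hd'
          nlinarith
        · exact h
      have e1 : (x : ℤ) ^ 2 - 1 = t * (d : ℤ) ^ 2 := by
        have : (x : ℤ) ^ 2 = t * (d : ℤ) ^ 2 + 1 := by exact_mod_cast hd
        linarith
      have e2 : (x' : ℤ) ^ 2 - 1 = t * (d' : ℤ) ^ 2 := by
        have : (x' : ℤ) ^ 2 = t * (d' : ℤ) ^ 2 + 1 := by exact_mod_cast hd'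
        linarith
      have := pell_gap2 (m := t) (x := x) (e := d) (x' := x') (e' := d') (by exact_mod_cast ht.1)
        (by exact_mod_cast hx2) (by exact_mod_cast hd0) (by exact_mod_cast hd0') e1 e2 (by exact_mod_cast hlt)
      exact_mod_cast this
  refine (Finset.sum_le_sum h2).trans ?_
  simp

lemma card_cong {M X : ℕ} (T : Finset ℕ) (hT : ∀ x ∈ T, x ≤ X)
    (hc : ∀ x ∈ T, ∀ x' ∈ T, x % M = x' % M) : T.card ≤ X / M + 1 := by
  rw [← card_range (X / M + 1)]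
  refine Finset.card_le_card_of_injOn (fun x => x / M) ?_ ?_
  · intro x hx
    rw [mem_coe] at hx
    rw [mem_coe, mem_range]
    exact Nat.lt_succ_of_le (Nat.div_le_div_right (hT x hx))
  · intro x hx x' hx' he
    rw [mem_coe] at hx hx'
    have h1 := Nat.div_add_mod x M
    have h2 := Nat.div_add_mod x' M
    have h3 := hc x hx x' hx'
    simp only at he
    rw [← h1, ← h2, he, h3]

lemma pair_count {X d1 d2 : ℕ} (T : Finset ℕ)
    (hT : ∀ x ∈ T, 2 ≤ x ∧ x ≤ X ∧ d1 ^ 2 ∣ x - 1 ∧ d2 ^ 2 ∣ x + 1) :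
    (T.card : ℝ) ≤ X / ((d1 : ℝ) * d2) ^ 2 + 1 := by
  rcases T.eq_empty_or_nonempty with h0 | ⟨x0, hx0⟩
  · rw [h0]; simp; positivity
  obtain ⟨h2, -, g1, g2⟩ := hT x0 hx0
  have hcop : Nat.Coprime (d1 ^ 2) (d2 ^ 2) := by
    have h3 : (Nat.gcd d1 d2) ^ 2 ∣ x0 - 1 := (pow_dvd_pow_of_dvd (Nat.gcd_dvd_left _ _) 2).trans g1
    have h4 : (Nat.gcd d1 d2) ^ 2 ∣ x0 + 1 := (pow_dvd_pow_of_dvd (Nat.gcd_dvd_right _ _) 2).trans g2
    have h5 := Nat.dvd_sub h4 h3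
    have h6 : x0 + 1 - (x0 - 1) = 2 := by omega
    rw [h6] at h5
    have h7 : Nat.gcd d1 d2 = 1 := by
      have h8 := Nat.le_of_dvd (by norm_num) h5
      have h9 : Nat.gcd d1 d2 < 2 := by nlinarith
      have h10 : Nat.gcd d1 d2 ≠ 0 := by
        intro h; rw [h] at h5; norm_num at h5
      omega
    exact Nat.Coprime.pow 2 2 h7
  have hmod : ∀ x ∈ T, ∀ x' ∈ T, x % (d1 ^ 2 * d2 ^ 2) = x' % (d1 ^ 2 * d2 ^ 2) := by
    have key : ∀ x ∈ T, ∀ x' ∈ T, x ≤ x' → x % (d1 ^ 2 * d2 ^ 2) = x' % (d1 ^ 2 * d2 ^ 2) := by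
      intro x hx x' hx' hle
      obtain ⟨a1, -, b1, c1⟩ := hT x hx
      obtain ⟨a2, -, b2, c2⟩ := hT x' hx'
      have e1 := Nat.dvd_sub b2 b1
      have e2 := Nat.dvd_sub c2 c1
      have f1 : x' - 1 - (x - 1) = x' - x := by omega
      have f2 : x' + 1 - (x + 1) = x' - x := by omega
      rw [f1] at e1
      rw [f2] at e2
      exact (Nat.modEq_iff_dvd' hle).2 (hcop.mul_dvd_of_dvd_of_dvd e1 e2)
    intro x hx x' hx'
    rcases le_total x x' with h | h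
    · exact key x hx x' hx' h
    · exact (key x' hx' x hx h).symm
  have h3 := card_cong T (fun x hx => (hT x hx).2.1) hmod
  have h4 : ((X / (d1 ^ 2 * d2 ^ 2) : ℕ) : ℝ) ≤ (X : ℝ) / ((d1 ^ 2 * d2 ^ 2 : ℕ) : ℝ) := Nat.cast_div_le
  have h5 : (T.card : ℝ) ≤ ((X / (d1 ^ 2 * d2 ^ 2) : ℕ) : ℝ) + 1 := by exact_mod_cast h3
  have h6 : ((d1 ^ 2 * d2 ^ 2 : ℕ) : ℝ) = ((d1 : ℝ) * d2) ^ 2 := by push_cast; ring
  rw [h6] at h4
  linarith

lemma tail_sq (d0 : ℕ) (hd0 : 1 ≤ d0) (K : ℕ) (hK : d0 ≤ K + 1) :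
    ∑ d ∈ Icc d0 K, 1 / (d : ℝ) ^ 2 ≤ 2 / d0 - 2 / ((K + 1 : ℕ) : ℝ) := by
  obtain ⟨c, rfl⟩ : ∃ c, d0 = c + 1 := ⟨d0 - 1, by omega⟩
  have hK' : c ≤ K := by omega
  clear hK
  induction K, hK' using Nat.le_induction with
  | base => simp
  | succ K hK ih =>
    rw [Finset.sum_Icc_succ_top (by omega)]
    have h1 : (0 : ℝ) < ((K + 1 : ℕ) : ℝ) := by positivity
    have h2 : (0 : ℝ) < ((K + 1 + 1 : ℕ) : ℝ) := by positivity
    have h3 : 1 / ((K + 1 : ℕ) : ℝ) ^ 2 ≤ 2 / ((K + 1 : ℕ) : ℝ) - 2 / ((K + 1 + 1 : ℕ) : ℝ) := by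
      rw [div_sub_div _ _ h1.ne' h2.ne', div_le_div_iff₀ (by positivity) (by positivity)]
      push_cast
      have : (0 : ℝ) ≤ K := Nat.cast_nonneg K
      nlinarith
    linarith

lemma tail_sq' (y : ℝ) (hy : 0 < y) (K : ℕ) :
    ∑ d ∈ (Icc 1 K).filter (fun d : ℕ => y < d), 1 / (d : ℝ) ^ 2 ≤ 2 / y := by
  set d0 := ⌊y⌋₊ + 1 with hd0
  have h1 : (Icc 1 K).filter (fun d : ℕ => y < d) ⊆ Icc d0 K := by
    intro d hd
    rw [mem_filter, mem_Icc] at hd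
    rw [mem_Icc]
    refine ⟨?_, hd.1.2⟩
    have : ⌊y⌋₊ < d := (Nat.floor_lt hy.le).2 hd.2
    omega
  refine (Finset.sum_le_sum_of_subset_of_nonneg h1 fun _ _ _ => by positivity).trans ?_
  have h3 : (y : ℝ) ≤ d0 := by
    have := Nat.lt_floor_add_one y
    rw [hd0]; push_cast; linarith
  have h4 : 2 / (d0 : ℝ) ≤ 2 / y := by gcongr
  refine le_trans ?_ h4
  by_cases hK : d0 ≤ K + 1
  · have h5 := tail_sq d0 (by omega) K hK
    have h6 : 0 ≤ 2 / ((K + 1 : ℕ) : ℝ) := by positivity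
    linarith
  · rw [Finset.Icc_eq_empty (by omega)]
    simp
    positivity

lemma harm_le (Z : ℕ) : ∑ d ∈ Icc 1 Z, 1 / (d : ℝ) ≤ 1 + Real.log Z := by
  have h := harmonic_le_one_add_log Z
  refine le_trans (le_of_eq ?_) h
  rw [harmonic_eq_sum_Icc]
  push_cast
  refine Finset.sum_congr rfl fun d _ => ?_
  rw [one_div]

/-- `2 ≤ x ≤ X` with `d1 ^ 2 ∣ x - 1`, `d2 ^ 2 ∣ x + 1`, `E < d1 d2 ≤ Z` -/
lemma count_pairs (E : ℝ) (hE : 0 < E) (Z X : ℕ) (S : Finset ℕ)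
    (hS : ∀ x ∈ S, 2 ≤ x ∧ x ≤ X ∧ ∃ d1 d2 : ℕ, 1 ≤ d1 ∧ 1 ≤ d2 ∧ d1 ^ 2 ∣ x - 1 ∧ d2 ^ 2 ∣ x + 1 ∧
      E < (d1 : ℝ) * d2 ∧ d1 * d2 ≤ Z) :
    (S.card : ℝ) ≤ (2 * X / E + Z) * (1 + Real.log Z) := by
  classical
  have h1 : S ⊆ (Icc 1 Z).biUnion (fun d1 => ((Icc 1 (Z / d1)).filter (fun d2 : ℕ => E / d1 < d2)).biUnion
      (fun d2 => S.filter (fun x => d1 ^ 2 ∣ x - 1 ∧ d2 ^ 2 ∣ x + 1))) := by
    intro x hx
    obtain ⟨-, -, d1, d2, p1, p2, g1, g2, hE1, hZ⟩ := hS x hx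
    rw [mem_biUnion]
    have hd1Z : d1 ≤ Z := le_trans (Nat.le_mul_of_pos_right _ p2) hZ
    refine ⟨d1, mem_Icc.2 ⟨p1, hd1Z⟩, ?_⟩
    rw [mem_biUnion]
    refine ⟨d2, mem_filter.2 ⟨mem_Icc.2 ⟨p2, ?_⟩, ?_⟩, mem_filter.2 ⟨hx, g1, g2⟩⟩
    · rw [Nat.le_div_iff_mul_le p1, mul_comm]; exact hZ
    · rw [div_lt_iff₀ (by exact_mod_cast p1), mul_comm]; exact hE1
  have h2 : (S.card : ℝ) ≤ ∑ d1 ∈ Icc 1 Z, ∑ d2 ∈ (Icc 1 (Z / d1)).filter (fun d2 : ℕ => E / d1 < d2),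
      ((S.filter (fun x => d1 ^ 2 ∣ x - 1 ∧ d2 ^ 2 ∣ x + 1)).card : ℝ) := by
    have h3 := (Finset.card_le_card h1).trans (Finset.card_biUnion_le.trans
      (Finset.sum_le_sum fun d1 _ => Finset.card_biUnion_le))
    exact_mod_cast h3
  refine h2.trans ?_
  have h4 : ∀ d1 ∈ Icc 1 Z, ∑ d2 ∈ (Icc 1 (Z / d1)).filter (fun d2 : ℕ => E / d1 < d2),
      ((S.filter (fun x => d1 ^ 2 ∣ x - 1 ∧ d2 ^ 2 ∣ x + 1)).card : ℝ) ≤ (2 * X / E + Z) * (1 / (d1 : ℝ)) := by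
    intro d1 hd1
    rw [mem_Icc] at hd1
    have hd1r : (0 : ℝ) < d1 := by exact_mod_cast hd1.1
    have h5 : ∀ d2 ∈ (Icc 1 (Z / d1)).filter (fun d2 : ℕ => E / d1 < d2),
        ((S.filter (fun x => d1 ^ 2 ∣ x - 1 ∧ d2 ^ 2 ∣ x + 1)).card : ℝ) ≤
          (X : ℝ) / d1 ^ 2 * (1 / (d2 : ℝ) ^ 2) + 1 := by
      intro d2 hd2
      have := pair_count (X := X) (d1 := d1) (d2 := d2)
        (S.filter (fun x => d1 ^ 2 ∣ x - 1 ∧ d2 ^ 2 ∣ x + 1)) (by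
          intro x hx
          rw [mem_filter] at hx
          exact ⟨(hS x hx.1).1, (hS x hx.1).2.1, hx.2.1, hx.2.2⟩)
      refine this.trans (le_of_eq ?_)
      rw [mul_pow]
      rw [div_mul_div_comm, mul_one]
    refine (Finset.sum_le_sum h5).trans ?_
    rw [Finset.sum_add_distrib, ← Finset.mul_sum]
    have h6 := tail_sq' (E / d1) (by positivity) (Z / d1)
    have h7 : (∑ _d2 ∈ (Icc 1 (Z / d1)).filter (fun d2 : ℕ => E / d1 < d2), (1 : ℝ)) ≤ (Z : ℝ) / d1 := by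
      rw [Finset.sum_const, nsmul_eq_mul, mul_one]
      have h8 : ((Icc 1 (Z / d1)).filter (fun d2 : ℕ => E / d1 < d2)).card ≤ Z / d1 := by
        refine (Finset.card_filter_le _ _).trans ?_
        simp
      have h9 : ((Z / d1 : ℕ) : ℝ) ≤ (Z : ℝ) / d1 := Nat.cast_div_le
      refine le_trans ?_ h9
      exact_mod_cast h8
    have h10 : (X : ℝ) / d1 ^ 2 * ∑ d2 ∈ (Icc 1 (Z / d1)).filter (fun d2 : ℕ => E / d1 < d2), 1 / (d2 : ℝ) ^ 2 ≤
        (X : ℝ) / d1 ^ 2 * (2 / (E / d1)) := by gcongr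
    have h11 : (X : ℝ) / d1 ^ 2 * (2 / (E / d1)) = 2 * X / E * (1 / d1) := by
      field_simp
    calc _ ≤ (X : ℝ) / d1 ^ 2 * (2 / (E / d1)) + (Z : ℝ) / d1 := add_le_add h10 h7
      _ = _ := by rw [h11]; ring
  refine (Finset.sum_le_sum h4).trans ?_
  rw [← Finset.mul_sum]
  have := harm_le Z
  have h12 : 0 ≤ 2 * X / E + (Z : ℝ) := by positivity
  gcongr

end Pool.Agent.Helper577Eps
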