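import Pool.Agent.helper577_eps.Two
import Pool.Agent.H510R2.Div

set_option autoImplicit false

open Finset

namespace Pool.Agent.Helper577Eps

/-- the squarefree parts of `n` and `n ^ 2 + 1` have product less than `n ^ 2` -/
lemma twosq_core {m n t1 t2 : ℕ} (hm : 1 ≤ m) (hmn : m < n) (h1 : Sim m n) (h2 : Sim (m ^ 2 + 1) (n ^ 2 + 1))
    (s1 : Squarefree t1) (s2 : Squarefree t2) (d1 : t1 ∣ n) (d2 : t2 ∣ n ^ 2 + 1) : t1 * t2 < n ^ 2 := by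
  have hle : m ^ 2 < n ^ 2 := Nat.pow_lt_pow_left hmn (by norm_num)
  have e1 : t1 ∣ n ^ 2 - m ^ 2 := sqf_dvd s1 fun p hp hpt => by
    have a1 : p ∣ n := hpt.trans d1
    have a2 : p ∣ m := (h1 p hp).2 a1
    exact Nat.dvd_sub (dvd_pow a1 (by norm_num)) (dvd_pow a2 (by norm_num))
  have e2 : t2 ∣ n ^ 2 - m ^ 2 := sqf_dvd s2 fun p hp hpt => by
    have a1 : p ∣ n ^ 2 + 1 := hpt.trans d2
    have a2 : p ∣ m ^ 2 + 1 := (h2 p hp).2 a1
    have := Nat.dvd_sub a1 a2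
    have e : n ^ 2 + 1 - (m ^ 2 + 1) = n ^ 2 - m ^ 2 := by omega
    rwa [e] at this
  have hcop : Nat.Coprime n (n ^ 2 + 1) := by
    rw [show n ^ 2 + 1 = n * n + 1 by ring]
    simp
  have hc : Nat.Coprime t1 t2 := Nat.Coprime.coprime_dvd_left d1
    (Nat.Coprime.coprime_dvd_right d2 hcop)
  have := Nat.le_of_dvd (by omega) (hc.mul_dvd_of_dvd_of_dvd e1 e2)
  have hm2 : 1 ≤ m ^ 2 := Nat.one_le_pow _ _ hm
  omega

/-- larger members -/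
def QBad (n : ℕ) : Prop := ∃ m : ℕ, 1 ≤ m ∧ m < n ∧ Sim m n ∧ Sim (m ^ 2 + 1) (n ^ 2 + 1)

lemma root_part {M n0 n u w : ℕ} (hM0 : 0 < M) (h0 : M ∣ n0 ^ 2 + 1) (h : M ∣ n ^ 2 + 1)
    (hu : Nat.gcd M (n + n0) = u) (hw : M = u * w) : (w : ℤ) ∣ (n : ℤ) - n0 := by
  have hu0 : 0 < u := by rw [← hu]; exact Nat.gcd_pos_of_pos_left _ hM0
  obtain ⟨r, hr⟩ : u ∣ n + n0 := by rw [← hu]; exact Nat.gcd_dvd_right _ _
  have hcop : Nat.Coprime w r := by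
    have := Nat.coprime_div_gcd_div_gcd (m := M) (n := n + n0) (by rw [hu]; exact hu0)
    rw [hu, hw, hr, Nat.mul_div_cancel_left _ hu0, Nat.mul_div_cancel_left _ hu0] at this
    exact this
  have h1 : (M : ℤ) ∣ ((n : ℤ) - n0) * ((n : ℤ) + n0) := by
    have e1 : (M : ℤ) ∣ (n : ℤ) ^ 2 + 1 := by exact_mod_cast h
    have e2 : (M : ℤ) ∣ (n0 : ℤ) ^ 2 + 1 := by exact_mod_cast h0
    have := dvd_sub e1 e2
    have e : (n : ℤ) ^ 2 + 1 - ((n0 : ℤ) ^ 2 + 1) = ((n : ℤ) - n0) * ((n : ℤ) + n0) := by ring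
    rwa [e] at this
  have h2 : (n : ℤ) + n0 = u * r := by exact_mod_cast hr
  rw [h2, hw] at h1
  push_cast at h1
  have h3 : (u : ℤ) * w ∣ (u : ℤ) * (((n : ℤ) - n0) * r) := by
    have e : ((n : ℤ) - n0) * ((u : ℤ) * r) = (u : ℤ) * (((n : ℤ) - n0) * r) := by ring
    rwa [e] at h1
  have h4 : (w : ℤ) ∣ ((n : ℤ) - n0) * r := (mul_dvd_mul_iff_left (by exact_mod_cast hu0.ne')).1 h3
  exact (IsCoprime.dvd_of_dvd_mul_right (Nat.isCoprime_iff_coprime.2 hcop) h4)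

lemma root_cong {M n0 n n' : ℕ} (hM0 : 0 < M) (hM : ¬ 2 ∣ M) (h0 : M ∣ n0 ^ 2 + 1) (h : M ∣ n ^ 2 + 1)
    (h' : M ∣ n' ^ 2 + 1) (hu : Nat.gcd M (n + n0) = Nat.gcd M (n' + n0)) : n % M = n' % M := by
  set u := Nat.gcd M (n' + n0) with hud
  obtain ⟨w, hw⟩ : u ∣ M := Nat.gcd_dvd_left _ _
  have a1 := root_part hM0 h0 h hu hw
  have a2 := root_part hM0 h0 h' hud.symm hw
  have b1 : (w : ℤ) ∣ (n' : ℤ) - n := by
    have := dvd_sub a2 a1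
    have e : (n' : ℤ) - n0 - ((n : ℤ) - n0) = (n' : ℤ) - n := by ring
    rwa [e] at this
  have c1 : (u : ℤ) ∣ (n : ℤ) + n0 := by
    have : u ∣ n + n0 := by rw [← hu]; exact Nat.gcd_dvd_right _ _
    exact_mod_cast this
  have c2 : (u : ℤ) ∣ (n' : ℤ) + n0 := by
    have : u ∣ n' + n0 := by rw [hud]; exact Nat.gcd_dvd_right _ _
    exact_mod_cast this
  have b2 : (u : ℤ) ∣ (n' : ℤ) - n := by
    have := dvd_sub c2 c1
    have e : (n' : ℤ) + n0 - ((n : ℤ) + n0) = (n' : ℤ) - n := by ring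
    rwa [e] at this
  have hcop : Nat.Coprime u w := by
    refine Nat.Coprime.symm (Nat.coprime_of_dvd' ?_)
    intro p hp hpw hpu
    exfalso
    have d1 : (p : ℤ) ∣ (n : ℤ) + n0 := (by exact_mod_cast hpu : (p : ℤ) ∣ u).trans c1
    have d2 : (p : ℤ) ∣ (n : ℤ) - n0 := (by exact_mod_cast hpw : (p : ℤ) ∣ w).trans a1
    have d3 : (p : ℤ) ∣ 2 * n := by
      have := dvd_add d1 d2
      have e : (n : ℤ) + n0 + ((n : ℤ) - n0) = 2 * n := by ring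
      rwa [e] at this
    have d4 : p ∣ 2 * n := by exact_mod_cast d3
    have hpM : p ∣ M := hpu.trans ⟨w, hw⟩
    rcases (Nat.Prime.dvd_mul hp).1 d4 with h5 | h5
    · have : p = 2 := (Nat.prime_dvd_prime_iff_eq hp Nat.prime_two).1 h5
      rw [this] at hpM
      exact hM hpM
    · have e1 : p ∣ n ^ 2 + 1 := hpM.trans h
      have e2 : p ∣ n ^ 2 := dvd_pow h5 (by norm_num)
      have := (Nat.dvd_add_right e2).1 e1
      exact hp.one_lt.ne' (Nat.dvd_one.1 this)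
  have b3 : (M : ℤ) ∣ (n' : ℤ) - n := by
    rw [hw]
    push_cast
    exact (Nat.isCoprime_iff_coprime.2 hcop).mul_dvd b2 b1
  exact (Nat.modEq_iff_dvd.2 b3)

lemma root_count (b X : ℕ) (hb : 1 ≤ b) (S : Finset ℕ) (hS : ∀ n ∈ S, n ≤ X ∧ b ^ 2 ∣ n ^ 2 + 1) :
    (S.card : ℝ) ≤ (b ^ 2).divisors.card * (X * (1 / (b : ℝ) ^ 2) + 1) := by
  classical
  rcases S.eq_empty_or_nonempty with hemp | ⟨n0, hn0⟩
  · rw [hemp]; simp only [card_empty, Nat.cast_zero]; positivity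
  have hM0 : 0 < b ^ 2 := Nat.pow_pos hb
  have hM : ¬ 2 ∣ b ^ 2 := by
    intro h2
    have h3 : 2 ∣ b := Nat.prime_two.dvd_of_dvd_pow h2
    obtain ⟨c, rfl⟩ := h3
    obtain ⟨-, q, hq⟩ := hS n0 hn0
    have : n0 ^ 2 + 1 = 4 * (c ^ 2 * q) := by rw [hq]; ring
    rcases Nat.even_or_odd' n0 with ⟨k, hk | hk⟩
    · rw [hk] at this
      have e : (2 * k) ^ 2 = 4 * k ^ 2 := by ring
      omega
    · rw [hk] at this
      have e : (2 * k + 1) ^ 2 = 4 * (k ^ 2 + k) + 1 := by ring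
      omega
  have h1 : S.card = ∑ u ∈ (b ^ 2).divisors, (S.filter (fun n => Nat.gcd (b ^ 2) (n + n0) = u)).card :=
    Finset.card_eq_sum_card_fiberwise (fun n _ => by
      rw [mem_coe, Nat.mem_divisors]
      exact ⟨Nat.gcd_dvd_left _ _, hM0.ne'⟩)
  have h2 : ∀ u ∈ (b ^ 2).divisors, ((S.filter (fun n => Nat.gcd (b ^ 2) (n + n0) = u)).card : ℝ) ≤
      X * (1 / (b : ℝ) ^ 2) + 1 := by
    intro u _
    have h3 := card_cong (M := b ^ 2) (X := X) (S.filter (fun n => Nat.gcd (b ^ 2) (n + n0) = u))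
      (fun n hn => (hS n (mem_filter.1 hn).1).1) (fun n hn n' hn' => by
        rw [mem_filter] at hn hn'
        exact root_cong hM0 hM (hS n0 hn0).2 (hS n hn.1).2 (hS n' hn'.1).2 (hn.2.trans hn'.2.symm))
    have h4 : ((S.filter (fun n => Nat.gcd (b ^ 2) (n + n0) = u)).card : ℝ) ≤ ((X / b ^ 2 : ℕ) : ℝ) + 1 := by
      exact_mod_cast h3
    have h5 : ((X / b ^ 2 : ℕ) : ℝ) ≤ (X : ℝ) / ((b ^ 2 : ℕ) : ℝ) := Nat.cast_div_le
    push_cast at h5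
    have h6 : (X : ℝ) / (b : ℝ) ^ 2 = X * (1 / (b : ℝ) ^ 2) := by ring
    linarith
  rw [h1]
  push_cast
  refine (Finset.sum_le_sum h2).trans (le_of_eq ?_)
  rw [Finset.sum_const, nsmul_eq_mul]

end Pool.Agent.Helper577Eps
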