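import Pool.Agent.helper577_eps.TwoSq

set_option autoImplicit false

open Finset

namespace Pool.Agent.Helper577Eps

theorem twosq_count (ε : ℝ) (hε : 0 < ε) : ∃ C : ℝ, 0 < C ∧ ∀ X : ℕ, 1 ≤ X → ∀ S : Finset ℕ,
    (∀ n ∈ S, n ≤ X ∧ QBad n) → (S.card : ℝ) ≤ C * (X : ℝ) ^ (3 / 4 + ε) := by
  classical
  obtain ⟨C0, hC0, hdiv⟩ := Pool.Agent.H510R2.divisor_bound (ε / 2) (by positivity)
  set T : ℝ := C0 * 2 ^ ε with hT
  have hT0 : 0 < T := by positivity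
  refine ⟨2 * (2 / ε + 1) + 2 + T * 6, by positivity, fun X hX S hS => ?_⟩
  have hXr : (1 : ℝ) ≤ X := by exact_mod_cast hX
  have hX0 : (0 : ℝ) < X := by linarith
  set V : ℝ := (X : ℝ) ^ (1 / 4 : ℝ) with hV
  have hV1 : 1 ≤ V := Real.one_le_rpow hXr (by norm_num)
  have hV4 : V ^ 4 = X := by
    rw [hV, ← Real.rpow_natCast, ← Real.rpow_mul hX0.le]
    norm_num
  have hV3 : V ^ 3 = (X : ℝ) ^ (3 / 4 : ℝ) := by
    rw [hV, ← Real.rpow_natCast, ← Real.rpow_mul hX0.le]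
    norm_num
  set Q : ℝ := (X : ℝ) ^ ε with hQ
  have hQ1 : 1 ≤ Q := Real.one_le_rpow hXr hε.le
  have hfinal : (X : ℝ) ^ (3 / 4 + ε) = V ^ 3 * Q := by rw [hV3, hQ, ← Real.rpow_add hX0]
  have hV31 : 1 ≤ V ^ 3 := one_le_pow₀ hV1
  set A := ⌈V ^ 3⌉₊ with hA
  have hA1 : V ^ 3 ≤ A := Nat.le_ceil _
  have hA2 : (A : ℝ) ≤ 2 * V ^ 3 := by
    have := Nat.ceil_lt_add_one (show 0 ≤ V ^ 3 by positivity)
    rw [← hA] at this
    linarith
  set B0 := ⌊V⌋₊ with hB0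
  have hB01 : 1 ≤ B0 := Nat.le_floor (by simpa using hV1)
  have hB0r : (1 : ℝ) ≤ B0 := by exact_mod_cast hB01
  have hB0V : (B0 : ℝ) ≤ V := Nat.floor_le (by positivity)
  have hB0V2 : V ≤ 2 * B0 := by
    have := Nat.lt_floor_add_one V
    rw [← hB0] at this
    linarith
  set B1 := ⌊2 * V ^ 3⌋₊ with hB1
  have hB1V : (B1 : ℝ) ≤ 2 * V ^ 3 := Nat.floor_le (by positivity)
  have hn1 : ∀ n ∈ S, 2 ≤ n := by
    intro n hn
    obtain ⟨-, m, hm, hmn, -, -⟩ := hS n hn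
    omega
  set S1 := S.filter (fun n : ℕ => ∃ t d : ℕ, 1 ≤ t ∧ t ≤ A ∧ n ^ 2 + 1 = t * d ^ 2) with hS1
  set S2 := S.filter (fun n : ℕ => ∃ t d : ℕ, 1 ≤ t ∧ t ≤ B0 ^ 2 ∧ n = t * d ^ 2) with hS2
  set F : ℕ → Finset ℕ := fun b => S.filter (fun n : ℕ => b ^ 2 ∣ n ^ 2 + 1) with hF
  set S3 := (Ioc B0 B1).biUnion F with hS3
  have hsub : S ⊆ S1 ∪ (S2 ∪ S3) := by
    intro n hn
    obtain ⟨hnX, m, hm, hmn, h1, h2⟩ := hS n hn
    have hnpos := hn1 n hn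
    rw [mem_union, mem_union]
    obtain ⟨t1, a, e1, q1⟩ := Nat.sq_mul_squarefree n
    obtain ⟨t2, b, e2, q2⟩ := Nat.sq_mul_squarefree (n ^ 2 + 1)
    have hcore := twosq_core hm hmn h1 h2 q1 q2 ⟨a ^ 2, by rw [← e1]; ring⟩ ⟨b ^ 2, by rw [← e2]; ring⟩
    have p1 : 1 ≤ t1 := Nat.one_le_iff_ne_zero.2 q1.ne_zero
    have p2 : 1 ≤ t2 := Nat.one_le_iff_ne_zero.2 q2.ne_zero
    by_cases c1 : t2 ≤ A
    · left
      rw [hS1, mem_filter]
      exact ⟨hn, t2, b, p2, c1, by rw [← e2]; ring⟩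
    right
    push Not at c1
    by_cases c2 : b ≤ B0
    · left
      rw [hS2, mem_filter]
      refine ⟨hn, t1, a, p1, ?_, by rw [← e1]; ring⟩
      by_contra hcon
      push Not at hcon
      have h3 : b ^ 2 ≤ B0 ^ 2 := Nat.pow_le_pow_left c2 2
      have h4 : b ^ 2 < t1 := by omega
      have h5 : b ^ 2 * t2 < t1 * t2 := Nat.mul_lt_mul_of_pos_right h4 p2
      omega
    · right
      push Not at c2
      rw [hS3, mem_biUnion]
      refine ⟨b, mem_Ioc.2 ⟨c2, Nat.le_floor ?_⟩, ?_⟩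
      · by_contra hcon
        push Not at hcon
        have h3 : (A : ℝ) < t2 := by exact_mod_cast c1
        have h4 : (b : ℝ) ^ 2 * t2 = (n : ℝ) ^ 2 + 1 := by exact_mod_cast e2
        have hnXr : (n : ℝ) ≤ X := by exact_mod_cast hnX
        have hn0 : (0 : ℝ) ≤ n := by positivity
        have h5 : (2 * V ^ 3) ^ 2 * V ^ 3 ≤ (b : ℝ) ^ 2 * t2 := by
          have : V ^ 3 ≤ t2 := by linarith
          gcongr
        rw [h4] at h5
        have h6 : (n : ℝ) ^ 2 ≤ (V ^ 4) ^ 2 := by rw [hV4]; gcongr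
        have h7 : (2 * V ^ 3) ^ 2 * V ^ 3 = 4 * V ^ 9 := by ring
        have h8 : (V ^ 4) ^ 2 = V ^ 8 := by ring
        have h9 : V ^ 8 ≤ V ^ 9 := pow_le_pow_right₀ hV1 (by norm_num)
        have h10 : 1 ≤ V ^ 8 := one_le_pow₀ hV1
        rw [h7] at h5
        rw [h8] at h6
        linarith
      · simp only [hF, mem_filter]
        exact ⟨hn, ⟨t2, e2.symm⟩⟩
  have b1 : (S1.card : ℝ) ≤ 2 * (2 / ε + 1) * (V ^ 3 * Q) := by
    have h1 := count_pell A X S1 (fun x hx => by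
      rw [hS1, mem_filter] at hx
      have := hn1 x hx.1
      exact ⟨by omega, (hS x hx.1).1, hx.2⟩)
    have h2 : (S1.card : ℝ) ≤ A * (Nat.log 2 X + 1) := by exact_mod_cast h1
    have h3 : (Nat.log 2 X : ℝ) * Real.log 2 ≤ Real.log (X : ℝ) := by
      rw [← Real.log_pow]
      refine Real.log_le_log (by positivity) ?_
      exact_mod_cast Nat.pow_log_le_self 2 (by omega)
    have h4 : Real.log (X : ℝ) ≤ Q / ε := Real.log_le_rpow_div hX0.le hε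
    have h5 := Real.log_two_gt_d9
    have h6 : (Nat.log 2 X : ℝ) ≤ 2 * (Q / ε) := by
      have : (0 : ℝ) ≤ Nat.log 2 X := by positivity
      nlinarith
    have h7 : (Nat.log 2 X : ℝ) + 1 ≤ (2 / ε + 1) * Q := by
      have e : 2 * (Q / ε) = 2 / ε * Q := by ring
      rw [e] at h6
      linarith
    calc (S1.card : ℝ) ≤ A * (Nat.log 2 X + 1) := h2
      _ ≤ (2 * V ^ 3) * ((2 / ε + 1) * Q) := by gcongr
      _ = _ := by ring
  have b2 : (S2.card : ℝ) ≤ 2 * (V ^ 3 * Q) := by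
    have h1 := count_sq (B0 ^ 2) X S2 (fun n hn => by
      rw [hS2, mem_filter] at hn
      have := hn1 n hn.1
      exact ⟨by omega, (hS n hn.1).1, hn.2⟩)
    refine h1.trans ?_
    have h2 : Real.sqrt ((X : ℝ) * ((B0 ^ 2 : ℕ) : ℝ)) ≤ V ^ 3 := by
      refine Real.sqrt_le_iff.2 ⟨by positivity, ?_⟩
      push_cast
      calc (X : ℝ) * (B0 : ℝ) ^ 2 ≤ V ^ 4 * V ^ 2 := by rw [hV4]; gcongr
        _ = (V ^ 3) ^ 2 := by ring
    calc 2 * Real.sqrt ((X : ℝ) * ((B0 ^ 2 : ℕ) : ℝ)) ≤ 2 * (V ^ 3 * 1) := by rw [mul_one]; gcongr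
      _ ≤ 2 * (V ^ 3 * Q) := by gcongr
  have b3 : (S3.card : ℝ) ≤ T * 6 * (V ^ 3 * Q) := by
    have h1 : (S3.card : ℝ) ≤ ∑ b ∈ Ioc B0 B1, ((F b).card : ℝ) := by exact_mod_cast Finset.card_biUnion_le
    refine h1.trans ?_
    have h2 : ∀ b ∈ Ioc B0 B1, ((F b).card : ℝ) ≤ (T * Q) * (X * (1 / (b : ℝ) ^ 2) + 1) := by
      intro b hb
      rw [mem_Ioc] at hb
      rcases (F b).eq_empty_or_nonempty with hemp | ⟨n0, hn0⟩
      · rw [hemp]; simp only [card_empty, Nat.cast_zero]; positivity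
      have h3 := root_count b X (by omega) (F b) (fun n hn => by
        simp only [hF, mem_filter] at hn
        exact ⟨(hS n hn.1).1, hn.2⟩)
      refine h3.trans ?_
      have h4 : ((b ^ 2).divisors.card : ℝ) ≤ T * Q := by
        refine (hdiv (b ^ 2) (Nat.one_le_pow _ _ (by omega))).trans ?_
        simp only [hF, mem_filter] at hn0
        have hb2 : b ^ 2 ≤ n0 ^ 2 + 1 := Nat.le_of_dvd (by positivity) hn0.2
        have hn0X := (hS n0 hn0.1).1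
        have hb3 : (((b ^ 2 : ℕ)) : ℝ) ≤ (2 * (X : ℝ)) ^ 2 := by
          have e1 : ((b ^ 2 : ℕ) : ℝ) ≤ (n0 : ℝ) ^ 2 + 1 := by exact_mod_cast hb2
          have e2 : (n0 : ℝ) ≤ X := by exact_mod_cast hn0X
          have e3 : (0 : ℝ) ≤ n0 := by positivity
          nlinarith
        calc C0 * (((b ^ 2 : ℕ)) : ℝ) ^ (ε / 2) ≤ C0 * ((2 * (X : ℝ)) ^ 2) ^ (ε / 2) := by gcongr
          _ = C0 * (2 * (X : ℝ)) ^ ε := by
            rw [← Real.rpow_natCast (2 * (X : ℝ)) 2, ← Real.rpow_mul (by positivity)]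
            congr 2
            push_cast
            ring
          _ = T * Q := by
            rw [Real.mul_rpow (by norm_num) hX0.le, hT, hQ]
            ring
      gcongr
    refine (Finset.sum_le_sum h2).trans ?_
    rw [← Finset.mul_sum, Finset.sum_add_distrib, ← Finset.mul_sum]
    have h4 : ∑ b ∈ Ioc B0 B1, 1 / (b : ℝ) ^ 2 ≤ 2 / (B0 : ℝ) := by
      refine le_trans (Finset.sum_le_sum_of_subset_of_nonneg ?_ (fun _ _ _ => by positivity))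
        (tail_sq' (B0 : ℝ) (by linarith) B1)
      intro b hb
      rw [mem_Ioc] at hb
      rw [mem_filter, mem_Icc]
      exact ⟨⟨by omega, hb.2⟩, by exact_mod_cast hb.1⟩
    have h5 : ∑ _b ∈ Ioc B0 B1, (1 : ℝ) ≤ 2 * V ^ 3 := by
      rw [Finset.sum_const, nsmul_eq_mul, Nat.card_Ioc, mul_one]
      have : ((B1 - B0 : ℕ) : ℝ) ≤ B1 := by exact_mod_cast Nat.sub_le _ _
      linarith
    have h6 : (X : ℝ) * (2 / (B0 : ℝ)) ≤ 4 * V ^ 3 := by
      have h7 : 2 / (B0 : ℝ) ≤ 4 / V := by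
        rw [div_le_div_iff₀ (by positivity) (by positivity)]
        linarith
      calc (X : ℝ) * (2 / (B0 : ℝ)) ≤ V ^ 4 * (4 / V) := by rw [hV4]; gcongr
        _ = 4 * V ^ 3 := by field_simp
    have h8 : (X : ℝ) * ∑ b ∈ Ioc B0 B1, 1 / (b : ℝ) ^ 2 ≤ 4 * V ^ 3 := le_trans (by gcongr) h6
    calc T * Q * ((X : ℝ) * ∑ b ∈ Ioc B0 B1, 1 / (b : ℝ) ^ 2 + ∑ _b ∈ Ioc B0 B1, (1 : ℝ))
        ≤ T * Q * (4 * V ^ 3 + 2 * V ^ 3) := by gcongr
      _ = _ := by ring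
  have hc := (Finset.card_le_card hsub).trans ((Finset.card_union_le _ _).trans
    (Nat.add_le_add_left (Finset.card_union_le _ _) _))
  have hc' : (S.card : ℝ) ≤ S1.card + (S2.card + S3.card) := by exact_mod_cast hc
  rw [hfinal]
  calc (S.card : ℝ) ≤ S1.card + (S2.card + S3.card) := hc'
    _ ≤ 2 * (2 / ε + 1) * (V ^ 3 * Q) + (2 * (V ^ 3 * Q) + T * 6 * (V ^ 3 * Q)) := by gcongr
    _ = _ := by ring

end Pool.Agent.Helper577Eps
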